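import Mathlib
import Pool.Agent.H89.ED.All

/-!
# Real multiplication by `ℤ[ζ_p + ζ_p⁻¹]` and everywhere good reduction in every relative degree

Let `p` be an odd prime and `L` a totally real number field which contains `ω = ζ_p + ζ_p⁻¹`, and
`q = (2 - ω)^p`.  In every relative degree `m ≥ 2` (`m ≥ 3` for `L = ℚ`) there are infinitely many
totally real `K / L` without intermediate fields that contain a unit `u` for which `u + q` is a unit.
With `h = 1 / u` the curve `y² + x Φ(x) y = h x` is smooth over `𝓞 K`; with `x' = (2 - ω) x - 2` the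
identity for `Φ` turns it into `y'² = (x' + 2) (D_p(x') + 2 + 4 q h)`, the curve with real
multiplication of Tautz, Top and Verberkmoes.  The signs of `u + q` are prescribed.
-/

namespace Pool.Agent.Results.MP_e1ffa3_nt.RealMultiplicationEveryDegree

open NumberField Polynomial

/-- The affine curve `y² + Q(x) y = c x` over the ring `R` is smooth: it has no singular point along
any ring homomorphism from `R` to a field. -/
def Smooth {R : Type} [CommRing R] (Q : R[X]) (c : R) : Prop :=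
  ∀ (k : Type) [Field k] (φ : R →+* k) (x y : k),
    ¬ (y ^ 2 + (Q.map φ).eval x * y = φ c * x ∧ 2 * y + (Q.map φ).eval x = 0 ∧
      (derivative (Q.map φ)).eval x * y = φ c)

theorem result (p : ℕ) (hp : p.Prime) (hp2 : p ≠ 2) (L : Type) [Field L] [NumberField L]
    [IsTotallyReal L] (ω : 𝓞 L)
    (hω : ∃ ζ : AlgebraicClosure L, IsPrimitiveRoot ζ p ∧
      algebraMap L (AlgebraicClosure L) (ω : L) = ζ + ζ⁻¹) :
    ∃ Φ : (𝓞 L)[X], Φ.Monic ∧ Φ.natDegree = (p - 1) / 2 ∧ (X * Φ).Separable ∧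
      C ((2 - ω) ^ p) * X * Φ ^ 2 = (dickson 1 (1 : 𝓞 L) p).comp (C (2 - ω) * X - 2) + 2 ∧
      ∀ (m : ℕ) (δ : 𝓞 L) (B : ℕ), 2 ≤ m → δ ≠ 0 →
        (m = 2 → 1 < Module.finrank ℚ L ∧ ∀ σ : L →+* ℝ, 0 < σ (δ : L)) →
        ∃ (K : Type) (_ : Field K) (_ : NumberField K) (_ : Algebra L K),
          Module.finrank L K = m ∧ IsTotallyReal K ∧
          (∀ M : IntermediateField L K, M = ⊥ ∨ M = ⊤) ∧ (B : ℤ) < |discr K| ∧
          ∃ u h : 𝓞 K, h * u = 1 ∧ IsUnit (u + algebraMap (𝓞 L) (𝓞 K) ((2 - ω) ^ p)) ∧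
            Smooth ((X * Φ).map (algebraMap (𝓞 L) (𝓞 K))) h ∧
            (∀ x : K, x * ((Φ.map (algebraMap (𝓞 L) K)).eval x) ^ 2 + 4 * (h : K) ≠ 0) ∧
            ∀ σ : L →+* ℝ, Nat.card {ρ : K →+* ℝ // ρ.comp (algebraMap L K) = σ ∧
              ρ ((u + algebraMap (𝓞 L) (𝓞 K) ((2 - ω) ^ p) : 𝓞 K) : K) < 0}
                = if 0 < σ (δ : L) then m - 1 else m - 3 :=
  H89ED.all p hp hp2 L ω hω

end Pool.Agent.Results.MP_e1ffa3_nt.RealMultiplicationEveryDegree
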