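import Mathlib
import Pool.Agent.H89.RF.Main

namespace Pool.Agent.Results.MP_e1ffa3_nt.RealMultiplicationEveryField

open NumberField Polynomial

theorem result (r : ℕ) (hr : r.Prime) (hr2 : r ≠ 2) (F : Type) [Field F] [NumberField F]
    (w : 𝓞 F)
    (hw : ∃ ζ : AlgebraicClosure F, IsPrimitiveRoot ζ r ∧
      algebraMap F (AlgebraicClosure F) (w : F) = ζ + ζ⁻¹) :
    ∃ N : (𝓞 F)[X], N.natDegree = 4 ∧
      ((N * (C 64 * N - C ((4 - w ^ 2) ^ r))).map (algebraMap (𝓞 F) F)).Separable ∧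
      ∀ x n R : 𝓞 F, n = N.eval x → R = 64 * n - (4 - w ^ 2) ^ r →
        (∀ P : Ideal (𝓞 F), P.IsPrime → n ∈ P → Ideal.absNorm P % (2 * r) = 1) ∧
        (∀ P : Ideal (𝓞 F), P.IsPrime → R ∈ P → Ideal.absNorm P % 4 = 1) ∧
        (∀ P : Ideal (𝓞 F), P.IsPrime → n ∉ P → R ∉ P →
          H89RF.HasGoodModel (H89RF.curvePoly r w n R) P) ∧
        ∀ q B : ℕ, 0 < q → ∃ (y : 𝓞 F) (p : ℕ) (P : Ideal (𝓞 F)), (q : 𝓞 F) ∣ y - x ∧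
          p.Prime ∧ B < p ∧ ¬ (p : ℤ) ∣ discr F ∧ P.IsPrime ∧ Ideal.absNorm P = p ∧
          N.eval y ∈ P ∧ N.eval y ∉ P ^ 2 ∧
          ∀ P' : Ideal (𝓞 F), P'.IsPrime → (p : 𝓞 F) ∈ P' → P' ≠ P →
            N.eval y ∉ P' ∧ 64 * N.eval y - (4 - w ^ 2) ^ r ∉ P' :=
  H89RF.main r hr hr2 F w hw

end Pool.Agent.Results.MP_e1ffa3_nt.RealMultiplicationEveryField
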