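import Pool.Agent.H81.ET.Quad

/-!
# Genus 2 curves with real multiplication by `ℤ[(1 + √5) / 2]` in every even degree

For `u`, `t` in a ring with `u² + 125 u + 3125 = 432 e`, `e = u + 2 + 4 t`, the curve `C_{u,t}` is
`y² + h(x) y = f(x)` with `h = (u + 1) e` and the sextic `f` below.  The discriminant of `h² + 4 f`
is `2¹² e¹⁸`, and `C_{u,t}` is smooth wherever `e` is invertible.  Its Igusa-Clebsch invariants are
`(6 : 0 : - 9 / (8 e) : 1 / (256 e²))`, those of the point `(g, h) = (0, - 1 / (32 e))` of the
Humbert surface of discriminant `5` in the coordinates of Elkies and Kumar, where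
`z² = 12500 h² - 216 h = ((2 u + 125) / (16 e))²`.  In every even degree there are infinitely many
totally real fields without intermediate fields that contain such `u`, `t` with `e` a unit.
-/

set_option autoImplicit false

namespace Pool.Agent.Results.MP_e1ffa3_nt.SqrtFiveEvenDegree

open NumberField Polynomial

/-- The curve `y² + h(x) y = f(x)`, with `deg h ≤ 3` and `deg f ≤ 6`, is smooth over `R`: along no ring
homomorphism from `R` to a field does it have a singular point, neither in the affine chart nor at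
infinity (in the chart with coordinates `1 / x` and `y / x³`). -/
def SmoothGenusTwo {R : Type} [CommRing R] (h f : R[X]) : Prop :=
  h.natDegree ≤ 3 ∧ f.natDegree ≤ 6 ∧ ∀ (k : Type) [Field k] (φ : R →+* k),
    (∀ x y : k, ¬ (y ^ 2 + (h.map φ).eval x * y = (f.map φ).eval x ∧
      2 * y + (h.map φ).eval x = 0 ∧
      (derivative (h.map φ)).eval x * y = (derivative (f.map φ)).eval x)) ∧
    ∀ y : k, ¬ (y ^ 2 + φ (h.coeff 3) * y = φ (f.coeff 6) ∧ 2 * y + φ (h.coeff 3) = 0 ∧
      φ (h.coeff 2) * y = φ (f.coeff 5))

/-- The number of points over `F_7` of the reduction of `y² + h(x) y = f(x)` along the ring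
homomorphism `φ : R → F_7`: the affine points and the points at infinity. -/
noncomputable def numPoints {R : Type} [CommRing R] (h f : R[X]) (φ : R →+* ZMod 7) : ℕ :=
  (Finset.univ.filter fun P : ZMod 7 × ZMod 7 =>
    P.2 ^ 2 + (h.map φ).eval P.1 * P.2 = (f.map φ).eval P.1).card
  + (Finset.univ.filter fun y : ZMod 7 =>
    y ^ 2 + φ (h.coeff 3) * y = φ (f.coeff 6)).card

section
variable {R : Type} [CommRing R]

/-- `e = u + 2 + 4 t` -/
def e (u t : R) : R := u + 2 + 4 * t

/-- the constant coefficient of `f / e` -/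
def g (u t : R) : R :=
  3125 + 625 * u + 11121 * e u t + 5352 * u * e u t + 581 * u ^ 2 * e u t
    + 216 * e u t ^ 2 + 648 * e u t ^ 3 + 108 * u * e u t ^ 3
    + (12707 + 2326 * u) * t * e u t

/-- `h = (u + 1) e` -/
noncomputable def h (u t : R) : R[X] := C ((u + 1) * e u t)

/-- the sextic `f` -/
noncomputable def f (u t : R) : R[X] :=
  C (e u t) * (C (4 * u) * X ^ 6 - C (6125 + 123 * u - 864 * e u t) * X ^ 5
    + C (625 + 325 * u + 360 * e u t + 180 * u * e u t) * X ^ 4
    - C (106250 + 2150 * u + 43199 * e u t + 1190 * u * e u t - 8640 * e u t ^ 2) * X ^ 3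
    + C (6250 + 1750 * u + 7347 * e u t + 1944 * u * e u t + 2160 * e u t ^ 2
      + 540 * u * e u t ^ 2) * X ^ 2
    - C (165625 + 3375 * u + 158097 * e u t + 3738 * u * e u t + 22716 * e u t ^ 2
      + 1035 * u * e u t ^ 2 - 7776 * e u t ^ 3) * X + C (g u t))

end

/-- For every even `n ≥ 2` and every `B` there is a totally real number field `K` of degree `n`, without
intermediate fields and with discriminant larger than `B` in absolute value, that contains integers
`u`, `t` with `u² + 125 u + 3125 = 432 (u + 2 + 4 t)` and `u + 2 + 4 t` a unit, so that the curve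
`y² + h(x) y = f(x)` is smooth over the ring of integers, and there are two ring homomorphisms to `F_7`
along which the reduction of the curve has `12` and `11` points. -/
theorem result (n : ℕ) (hn : Even n) (hn0 : 0 < n) (B : ℕ) :
    ∃ (K : Type) (_ : Field K) (_ : NumberField K),
      Module.finrank ℚ K = n ∧ IsTotallyReal K ∧
      (∀ L : IntermediateField ℚ K, L = ⊥ ∨ L = ⊤) ∧ (B : ℤ) < |discr K| ∧
      ∃ u t : 𝓞 K, u ^ 2 + 125 * u + 3125 = 432 * (u + 2 + 4 * t) ∧ IsUnit (u + 2 + 4 * t) ∧
        SmoothGenusTwo (h u t) (f u t) ∧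
        ∃ φ ψ : 𝓞 K →+* ZMod 7, numPoints (h u t) (f u t) φ = 12 ∧
          numPoints (h u t) (f u t) ψ = 11 :=
  H81ET.all_even n hn hn0 B

end Pool.Agent.Results.MP_e1ffa3_nt.SqrtFiveEvenDegree
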