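import Pool.Agent.H97.E3.Final

/-!
# Abelian surfaces with everywhere good reduction and real multiplication by `ℤ[√3]` in every even degree

Let `F` be a totally real field, `k` an integer of `F` such that `e = (2 k - 1)² - 108` is a totally positive unit and
not a square, and let `M = F(√e) = F(a)`, `a² - (2 k - 1) a + 27 = 0`. As `e` is the discriminant of this
polynomial, `M / F` is unramified. Put `d = 27 - a²`. The curve `E : y² = x³ + d (x + 4)²` has the discriminant
`- 2¹² e a⁴`, the model `y² + (a + 1) x y = (x - 1)³ + (20 - k a) x²` of discriminant `- e a⁴` over the integers of `M`, and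
with `b = 27 / a` the model `y² = x³ + (2 b² - 81) x² + (b⁴ - 18 b²) x - b⁴` of discriminant `- 2¹² e b⁸`; `a` and `b` are
coprime, and so `E` has good reduction everywhere. With `s = a / 3` its quotient by `{O, (0, ± 4 √d)}` is
`y² = x³ - 3 d (x + 4 s²)²`, which is isomorphic to the conjugate of `E` as `- 3 d = s² (27 - b²)`. In every even degree
there are infinitely many totally real fields without intermediate fields that contain such a `k`.
-/

set_option autoImplicit false

namespace Pool.Agent.Results.MP_e1ffa3_nt.SqrtThreeEvenDegree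

open NumberField

/-- The Weierstrass curve `y² = x³ + d (x + 4)²`. -/
def curve {R : Type} [CommRing R] (d : R) : WeierstrassCurve R :=
  ⟨0, d, 0, 8 * d, 16 * d⟩

/-- `47` minus the number of affine points over `F_47` of the reduction of the Weierstrass curve `W`
along the ring homomorphism `φ : R → F_47`. -/
def tr {R : Type} [CommRing R] (W : WeierstrassCurve R) (φ : R →+* ZMod 47) : ℤ :=
  47 - ((Finset.univ.filter fun P : ZMod 47 × ZMod 47 =>
    P.2 ^ 2 + φ W.a₁ * P.1 * P.2 + φ W.a₃ * P.2
      = P.1 ^ 3 + φ W.a₂ * P.1 ^ 2 + φ W.a₄ * P.1 + φ W.a₆).card : ℤ)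

/-- For every even `n ≥ 2` and every `B` there are a totally real number field `F` of degree `n`, without
intermediate fields and with discriminant larger than `B` in absolute value, an integer `k` of `F`
such that `(2 k - 1)² - 108` is a unit, a totally real quadratic extension `M` of `F` with an
automorphism `t` over `F`, and an integer `a` of `M` with `a t(a) = 27` and `a + t(a) = 2 k - 1`, such that for
`d = 27 - a²` the curve `E : y² = x³ + d (x + 4)²` satisfies the relations of a 3-isogeny from `E` to its conjugate
whose composite with its conjugate is `3`, has good reduction at every prime of `M`, and has the traces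
`12` and `- 6` along two ring homomorphisms from the integers of `M` to `F_47`. -/
theorem result (n : ℕ) (hn : Even n) (hn0 : 0 < n) (B : ℕ) :
    ∃ (F : Type) (_ : Field F) (_ : NumberField F),
      Module.finrank ℚ F = n ∧ IsTotallyReal F ∧
      (∀ L : IntermediateField ℚ F, L = ⊥ ∨ L = ⊤) ∧ (B : ℤ) < |discr F| ∧
      ∃ (k : 𝓞 F) (M : Type) (_ : Field M) (_ : NumberField M) (_ : Algebra F M)
        (t : M ≃ₐ[F] M) (a : 𝓞 M),
        IsUnit ((2 * k - 1) ^ 2 - 108) ∧ Module.finrank F M = 2 ∧ IsTotallyReal M ∧
        (a : M) * t a = 27 ∧ (a : M) + t a = algebraMap F M (2 * (k : F) - 1) ∧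
        (∃ s : M, 27 - (27 - (a : M) ^ 2) = 9 * s ^ 2 ∧
          -3 * (27 - (a : M) ^ 2) = s ^ 2 * t (27 - (a : M) ^ 2) ∧ s * t s = 3) ∧
        (∀ R : Ideal (𝓞 M), R.IsPrime → ∃ (W : WeierstrassCurve (𝓞 M))
          (C : WeierstrassCurve.VariableChange M),
          W.map (algebraMap (𝓞 M) M) = C • (curve (27 - a ^ 2)).map (algebraMap (𝓞 M) M) ∧
          W.Δ ∉ R) ∧
        ∃ φ ψ : 𝓞 M →+* ZMod 47, tr (curve (27 - a ^ 2)) φ = 12 ∧
          tr (curve (27 - a ^ 2)) ψ = -6 :=
  H97E3.all_even n hn hn0 B

end Pool.Agent.Results.MP_e1ffa3_nt.SqrtThreeEvenDegree
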